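import Mathlib
import Pool.Agent.P8H18.RR.Stm2

/-! # Project AR (helper18): package TEN, and digits -/

set_option autoImplicit false

namespace Pool.Agent.P8H1.AR

open Finset Pool.Agent.P8H18.RR Pool.Agent.P8H18.AR

theorem dig_lt (n i : ℕ) : dig n i < 10 := Nat.mod_lt _ (by norm_num)

theorem sum_lt (d : ℕ → ℕ) (hd : ∀ i, d i < 10) : ∀ K : ℕ, ∑ i ∈ range K, d i * 10 ^ i < 10 ^ K
  | 0 => by simp
  | K + 1 => by
    rw [sum_range_succ, pow_succ]
    have h1 := sum_lt d hd K
    have h2 := hd K
    have h3 : d K * 10 ^ K ≤ 9 * 10 ^ K := Nat.mul_le_mul_right _ (by omega)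
    omega

theorem dig_sum (d : ℕ → ℕ) (hd : ∀ i, d i < 10) : ∀ K i : ℕ, i < K →
    dig (∑ i ∈ range K, d i * 10 ^ i) i = d i
  | 0, i, h => by omega
  | K + 1, i, h => by
    rw [sum_range_succ]
    have h1 := sum_lt d hd K
    rcases Nat.lt_or_ge i K with h2 | h2
    · have h3 := dig_sum d hd K i h2
      unfold dig at h3 ⊢
      obtain ⟨m, rfl⟩ := Nat.exists_eq_add_of_lt h2
      have h4 : d (i + m + 1) * 10 ^ (i + m + 1) = 10 ^ i * (10 * (d (i + m + 1) * 10 ^ m)) := by ring
      rw [h4, Nat.add_mul_div_left _ _ (by positivity), Nat.add_mul_mod_self_left]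
      exact h3
    · have h3 : i = K := by omega
      subst h3
      unfold dig
      rw [mul_comm (d i), Nat.add_mul_div_left _ _ (by positivity), Nat.div_eq_of_lt h1, zero_add,
        Nat.mod_eq_of_lt (hd i)]

theorem dig_inj : ∀ (D m n : ℕ), m < 10 ^ D → n < 10 ^ D → (∀ i < D, dig m i = dig n i) → m = n
  | 0, m, n, hm, hn, _ => by
    simp only [pow_zero] at hm hn
    omega
  | D + 1, m, n, hm, hn, h => by
    have h0 := h 0 (by omega)
    simp only [dig, pow_zero, Nat.div_one] at h0
    have h1 : m / 10 = n / 10 := by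
      refine dig_inj D (m / 10) (n / 10) ?_ ?_ ?_
      · rw [Nat.div_lt_iff_lt_mul (by norm_num)]
        rwa [pow_succ] at hm
      · rw [Nat.div_lt_iff_lt_mul (by norm_num)]
        rwa [pow_succ] at hn
      · intro i hi
        have h2 := h (i + 1) (by omega)
        simp only [dig] at h2 ⊢
        rw [Nat.div_div_eq_div_mul, Nat.div_div_eq_div_mul, ← pow_succ']
        exact h2
    omega

/-- the digits below place `K` depend on the residue modulo `10 ^ K` -/
theorem dig_mod (n K i : ℕ) (h : i < K) : dig (n % 10 ^ K) i = dig n i := by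
  unfold dig
  obtain ⟨m, rfl⟩ := Nat.exists_eq_add_of_lt h
  conv_rhs => rw [← Nat.div_add_mod n (10 ^ (i + m + 1))]
  have h4 : 10 ^ (i + m + 1) * (n / 10 ^ (i + m + 1)) =
      10 ^ i * (10 * (10 ^ m * (n / 10 ^ (i + m + 1)))) := by ring
  rw [h4, Nat.mul_add_div (by positivity), Nat.mul_add_mod]

theorem up_lt (L n : ℕ) : up L n < 10 ^ L :=
  sum_lt (fun i => dig n (2 * L - i)) (fun _ => dig_lt _ _) L

theorem dig_up (L n i : ℕ) (h : i < L) : dig (up L n) i = dig n (2 * L - i) :=
  dig_sum (fun i => dig n (2 * L - i)) (fun _ => dig_lt _ _) L i h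

theorem ten : S_TEN := by
  intro L x y
  set S := (range (10 ^ (2 * L + 1))).filter (fun n : ℕ => ((n : ZMod (10 ^ L)) = x) ∧
    ((up L n : ℕ) : ZMod (10 ^ L)) = y) with hS
  have h1 : S.card ≤ (range 10).card := by
    refine card_le_card_of_injOn (fun n => dig n L) ?_ ?_
    · intro n _
      simp only [coe_range, Set.mem_Iio]
      exact dig_lt _ _
    · intro m hm n hn hmn
      simp only at hmn
      rw [mem_coe, hS, mem_filter, mem_range] at hm hn
      obtain ⟨hm0, hm1, hm2⟩ := hm
      obtain ⟨hn0, hn1, hn2⟩ := hn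
      have e1 : m % 10 ^ L = n % 10 ^ L := by
        have h := hm1.trans hn1.symm
        rwa [ZMod.natCast_eq_natCast_iff] at h
      have e2 : up L m = up L n := by
        have h := hm2.trans hn2.symm
        rw [ZMod.natCast_eq_natCast_iff] at h
        exact Nat.ModEq.eq_of_lt_of_lt h (up_lt L m) (up_lt L n)
      refine dig_inj _ m n hm0 hn0 ?_
      intro i hi
      rcases Nat.lt_trichotomy i L with h | h | h
      · rw [← dig_mod m L i h, ← dig_mod n L i h, e1]
      · rw [h]
        exact hmn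
      · have h3 := dig_up L m (2 * L - i) (by omega)
        have h4 := dig_up L n (2 * L - i) (by omega)
        rw [show 2 * L - (2 * L - i) = i by omega] at h3 h4
        rw [← h3, ← h4, e2]
  rwa [card_range] at h1

end Pool.Agent.P8H1.AR
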