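import Mathlib
import Pool.Agent.P8H1.AR.Ten

/-! # Project AR (helper18): package MAIN -/

set_option autoImplicit false

namespace Pool.Agent.P8H1.AR

open Finset Pool.Agent.P8H18.RR Pool.Agent.P8H18.AR

/-- the reversal of `K` digits -/
def rv (K n : ℕ) : ℕ := ∑ i ∈ range K, dig n (K - 1 - i) * 10 ^ i

theorem rv_lt (K n : ℕ) : rv K n < 10 ^ K :=
  sum_lt (fun i => dig n (K - 1 - i)) (fun _ => dig_lt _ _) K

theorem dig_rv (K n i : ℕ) (h : i < K) : dig (rv K n) i = dig n (K - 1 - i) :=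
  dig_sum (fun i => dig n (K - 1 - i)) (fun _ => dig_lt _ _) K i h

theorem rv_rv (K n : ℕ) (hn : n < 10 ^ K) : rv K (rv K n) = n := by
  refine dig_inj K _ _ (rv_lt _ _) hn ?_
  intro i hi
  rw [dig_rv _ _ _ hi, dig_rv _ _ _ (by omega), show K - 1 - (K - 1 - i) = i by omega]

theorem dig_div (n D j : ℕ) : dig (n / 10 ^ D) j = dig n (D + j) := by
  unfold dig
  rw [Nat.div_div_eq_div_mul, ← pow_add]

theorem up_mod (L K n : ℕ) (hKL : K ≤ L) : up L n % 10 ^ K = rv K (n / 10 ^ (2 * L + 1 - K)) := by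
  refine dig_inj K _ _ (Nat.mod_lt _ (by positivity)) (rv_lt _ _) ?_
  intro i hi
  rw [dig_mod _ _ _ hi, dig_up _ _ _ (by omega), dig_rv _ _ _ hi, dig_div]
  congr 1
  omega

theorem dig_zero (n : ℕ) : dig n 0 = n % 10 := by
  unfold dig
  rw [pow_zero, Nat.div_one]

/-- counting residues with a property of period ten -/
theorem card_per (P : ℕ → Prop) [DecidablePred P] (hP : Function.Periodic P 10) : ∀ m : ℕ,
    ((range (10 * m)).filter P).card = m * ((range 10).filter P).card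
  | 0 => by simp
  | m + 1 => by
    have h1 : range (10 * (m + 1)) = range (10 * m) ∪ Ico (10 * m) (10 * m + 10) := by
      ext x
      simp only [mem_range, mem_union, mem_Ico]
      omega
    rw [h1, filter_union, card_union_of_disjoint, card_per P hP m,
      Nat.filter_Ico_card_eq_of_periodic _ _ _ hP, Nat.count_eq_card_filter_range]
    · ring
    · apply disjoint_filter_filter
      rw [disjoint_left]
      intro x hx hx'
      simp only [mem_range, mem_Ico] at hx hx'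
      omega

theorem cnt_ten : ∀ u < 10, ∀ v < 10, u.Coprime 10 →
    ((range 10).filter (fun a => a.Coprime 10 ∧ (u * a + v) % 10 ≠ 0)).card =
      if v.Coprime 10 then 3 else 4 := by
  decide

theorem cop_mod (a : ℕ) : a.Coprime 10 ↔ (a % 10).Coprime 10 := by
  have h : Nat.gcd a 10 = Nat.gcd (a % 10) 10 := Nat.ModEq.gcd_eq (Nat.mod_modEq a 10).symm
  unfold Nat.Coprime
  rw [h]

/-- the residues which contribute -/
def Good (K u v : ℕ) : Finset ℕ :=
  (range (10 ^ K)).filter (fun a => a.Coprime 10 ∧ (u * a + v) % 10 ≠ 0)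

theorem card_good {K u v : ℕ} (hK : 1 ≤ K) (hu : u.Coprime 10) :
    (Good K u v).card = 10 ^ (K - 1) * if v.Coprime 10 then 3 else 4 := by
  unfold Good
  have h1 : 10 ^ K = 10 * 10 ^ (K - 1) := by
    rw [← pow_succ']
    congr 1
    omega
  rw [h1, card_per]
  · congr 1
    have h2 := cnt_ten (u % 10) (Nat.mod_lt _ (by norm_num)) (v % 10) (Nat.mod_lt _ (by norm_num))
      ((cop_mod u).1 hu)
    have h3 : (range 10).filter (fun a => a.Coprime 10 ∧ (u * a + v) % 10 ≠ 0) =
        (range 10).filter (fun a => a.Coprime 10 ∧ (u % 10 * a + v % 10) % 10 ≠ 0) := by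
      apply filter_congr
      intro a _
      have h4 : (u * a + v) % 10 = (u % 10 * a + v % 10) % 10 := by
        conv_lhs => rw [Nat.add_mod, Nat.mul_mod]
        conv_rhs => rw [Nat.add_mod, Nat.mul_mod, Nat.mod_mod, Nat.mod_mod]
      rw [h4]
    rw [h3, h2]
    simp only [cop_mod v]
  · intro a
    have h4 : (u * (a + 10) + v) % 10 = (u * a + v) % 10 := by
      rw [show u * (a + 10) + v = (u * a + v) + 10 * u by ring, Nat.add_mul_mod_self_left]
    have h5 : (a + 10).Coprime 10 ↔ a.Coprime 10 := by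
      rw [cop_mod (a + 10), cop_mod a, Nat.add_mod_right]
    simp only [h4, h5]

/-- primes in a progression -/
def PA (K a x : ℕ) : Finset ℕ := (Icc 1 x).filter (fun p => p.Prime ∧ p ≡ a [MOD 10 ^ K])

theorem fiber {L K u v a : ℕ} (hK : 1 ≤ K) (hKL : K ≤ L) (ha : a ∈ Good K u v) :
    ((PD L).filter (fun p => up L p ≡ u * p + v [MOD 10 ^ K])).filter (fun p => p % 10 ^ K = a) =
      PA K a ((rv K ((u * a + v) % 10 ^ K) + 1) * 10 ^ (2 * L + 1 - K) - 1) \
        PA K a (rv K ((u * a + v) % 10 ^ K) * 10 ^ (2 * L + 1 - K) - 1) := by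
  unfold Good at ha
  rw [mem_filter, mem_range] at ha
  obtain ⟨ha0, ha1, ha2⟩ := ha
  set y := (u * a + v) % 10 ^ K with hy
  set Y := rv K y with hY
  set T := 10 ^ (2 * L + 1 - K) with hT
  have hTpos : 0 < T := by positivity
  have hylt : y < 10 ^ K := Nat.mod_lt _ (by positivity)
  have hYlt : Y < 10 ^ K := rv_lt _ _
  have hy10 : y % 10 ≠ 0 := by
    rw [hy, Nat.mod_mod_of_dvd _ (dvd_pow_self 10 (by omega))]
    exact ha2
  have hYge : 10 ^ (K - 1) ≤ Y := by
    have h1 : dig Y (K - 1) = y % 10 := by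
      rw [hY, dig_rv _ _ _ (by omega), show K - 1 - (K - 1) = 0 by omega, dig_zero]
    rw [← h1] at hy10
    unfold dig at hy10
    by_contra hcon
    rw [not_le] at hcon
    rw [Nat.div_eq_of_lt hcon] at hy10
    exact hy10 rfl
  have hTK : 10 ^ K * T = 10 ^ (2 * L + 1) := by
    rw [hT, ← pow_add]
    congr 1
    omega
  have hTK1 : 10 ^ (K - 1) * T = 10 ^ (2 * L) := by
    rw [hT, ← pow_add]
    congr 1
    omega
  have hcong : ∀ p : ℕ, p % 10 ^ K = a → (u * p + v) % 10 ^ K = y := by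
    intro p hp
    have h1 : p ≡ a [MOD 10 ^ K] := by
      unfold Nat.ModEq
      rw [hp, Nat.mod_eq_of_lt ha0]
    exact (Nat.ModEq.add_right v (Nat.ModEq.mul_left u h1))
  ext p
  simp only [mem_filter, mem_sdiff, PD, PA, mem_Ico, mem_Icc]
  constructor
  · rintro ⟨⟨⟨⟨h1, h2⟩, h3⟩, h4⟩, h5⟩
    have h6 : rv K (p / T) = y := by
      rw [← up_mod L K p hKL, h4, hcong p h5]
    have h7 : p / T < 10 ^ K := by
      rw [Nat.div_lt_iff_lt_mul hTpos, hTK]
      exact h2
    have h8 : p / T = Y := by rw [hY, ← h6, rv_rv _ _ h7]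
    have h9 := Nat.div_add_mod p T
    have h10 := Nat.mod_lt p hTpos
    rw [h8] at h9
    have h11 : (Y + 1) * T = T * Y + T := by ring
    have h12 : Y * T = T * Y := mul_comm _ _
    have h13 : p ≡ a [MOD 10 ^ K] := by
      unfold Nat.ModEq
      rw [h5, Nat.mod_eq_of_lt ha0]
    have h14 := h3.one_lt
    have hTY : 0 < T * Y := Nat.mul_pos hTpos (lt_of_lt_of_le (by positivity) hYge)
    rw [h11, h12]
    refine ⟨⟨⟨by omega, by omega⟩, h3, h13⟩, ?_⟩
    rintro ⟨⟨_, h15⟩, _⟩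
    omega
  · rintro ⟨⟨⟨h1, h2⟩, h3, h4⟩, h5⟩
    have h6 : Y * T ≤ p := by
      by_contra hcon
      exact h5 ⟨⟨h1, by omega⟩, h3, h4⟩
    have h7 : 0 < (Y + 1) * T := by positivity
    have h8 : p < (Y + 1) * T := by omega
    have h9 : p / T = Y := Nat.div_eq_of_lt_le h6 h8
    have h10 : p % 10 ^ K = a := by
      have h11 := h4
      unfold Nat.ModEq at h11
      rw [h11, Nat.mod_eq_of_lt ha0]
    refine ⟨⟨⟨⟨?_, ?_⟩, h3⟩, ?_⟩, h10⟩
    · rw [← hTK1]
      exact (Nat.mul_le_mul_right T hYge).trans h6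
    · rw [← hTK]
      refine lt_of_lt_of_le h8 (Nat.mul_le_mul_right T hYlt)
    · unfold Nat.ModEq
      rw [up_mod L K p hKL, h9, hcong p h10, hY, rv_rv _ _ hylt]

theorem maps {L K u v : ℕ} (hK : 1 ≤ K) (hKL : K ≤ L) :
    ∀ p ∈ (PD L).filter (fun p => up L p ≡ u * p + v [MOD 10 ^ K]), p % 10 ^ K ∈ Good K u v := by
  intro p hp
  rw [mem_filter, PD, mem_filter, mem_Ico] at hp
  obtain ⟨⟨⟨h1, h2⟩, h3⟩, h4⟩ := hp
  have hd : 10 ∣ 10 ^ K := dvd_pow_self 10 (by omega)
  unfold Good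
  rw [mem_filter, mem_range]
  refine ⟨Nat.mod_lt _ (by positivity), ?_, ?_⟩
  · rw [cop_mod, Nat.mod_mod_of_dvd _ hd, ← cop_mod, Nat.Prime.coprime_iff_not_dvd h3]
    intro h5
    have h6 := Nat.le_of_dvd (by norm_num) h5
    have h7 : 10 ^ 2 ≤ 10 ^ (2 * L) := Nat.pow_le_pow_right (by norm_num) (by omega)
    omega
  · have h5 : (u * (p % 10 ^ K) + v) % 10 = up L p % 10 := by
      have h6 : u * (p % 10 ^ K) + v ≡ up L p [MOD 10 ^ K] := by
        refine Nat.ModEq.trans ?_ h4.symm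
        exact Nat.ModEq.add_right v (Nat.ModEq.mul_left u (Nat.mod_modEq p _))
      exact h6.of_dvd hd
    rw [h5]
    have h6 : up L p % 10 = dig p (2 * L) := by
      rw [← dig_zero, dig_up L p 0 (by omega), Nat.sub_zero]
    rw [h6]
    unfold dig
    have h7 : 1 ≤ p / 10 ^ (2 * L) := by
      rw [Nat.one_le_div_iff (by positivity)]
      exact h1
    have h8 : p / 10 ^ (2 * L) < 10 := by
      rw [Nat.div_lt_iff_lt_mul (by positivity), ← pow_succ']
      exact h2
    omega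

theorem mainA : S_MAINA := by
  rintro kap hkap ⟨c0, C0, hc0, hC0, hA⟩
  refine ⟨c0 / 2, 2 * C0, by positivity, by positivity, ?_⟩
  intro L K u v hK hKL hle hu
  have hL : 1 ≤ L := hK.trans hKL
  set X : ℝ := (L : ℝ) ^ kap with hX
  have hX0 : 0 ≤ X := by positivity
  have hle' : (10 : ℝ) ^ K ≤ Real.exp (c0 * X) :=
    hle.trans (Real.exp_le_exp.2 (by nlinarith))
  set T := 10 ^ (2 * L + 1 - K) with hT
  have hTpos : 0 < T := by positivity
  have hTK : 10 ^ K * T = 10 ^ (2 * L + 1) := by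
    rw [hT, ← pow_add]
    congr 1
    omega
  have hφ : Nat.totient (10 ^ K) = 4 * 10 ^ (K - 1) := by
    have h1 : (10 : ℕ) ^ K = 2 ^ K * 5 ^ K := by rw [← mul_pow]; norm_num
    have h2 : (10 : ℕ) ^ (K - 1) = 2 ^ (K - 1) * 5 ^ (K - 1) := by rw [← mul_pow]; norm_num
    rw [h1, h2, Nat.totient_mul (Nat.Coprime.pow _ _ (by norm_num)),
      Nat.totient_prime_pow Nat.prime_two (by omega), Nat.totient_prime_pow Nat.prime_five (by omega)]
    ring
  rw [← sum_fiberwise_of_maps_to (maps (u := u) (v := v) hK hKL)]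
  have hterm : ∀ a ∈ Good K u v,
      |(∑ p ∈ ((PD L).filter (fun p => up L p ≡ u * p + v [MOD 10 ^ K])).filter
        (fun p => p % 10 ^ K = a), Real.log p) - (T : ℝ) / (Nat.totient (10 ^ K) : ℝ)| ≤
      2 * C0 * 10 ^ (2 * L + 1) * Real.exp (-(c0 * X)) := by
    intro a ha
    rw [fiber hK hKL ha]
    unfold Good at ha
    rw [mem_filter, mem_range] at ha
    obtain ⟨ha0, ha1, ha2⟩ := ha
    set Y := rv K ((u * a + v) % 10 ^ K) with hY
    have hYlt : Y < 10 ^ K := rv_lt _ _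
    have hYpos : 0 < Y := by
      have h1 : dig Y (K - 1) = (u * a + v) % 10 := by
        rw [hY, dig_rv _ _ _ (by omega), show K - 1 - (K - 1) = 0 by omega, dig_zero,
          Nat.mod_mod_of_dvd _ (dvd_pow_self 10 (by omega))]
      rcases Nat.eq_zero_or_pos Y with h | h
      · rw [h] at h1
        unfold dig at h1
        simp at h1
        omega
      · exact h
    have hYT : 0 < Y * T := Nat.mul_pos hYpos hTpos
    have hYT2 : (Y + 1) * T = Y * T + T := by ring
    have hx2 : (Y + 1) * T - 1 ≤ 10 ^ (2 * L + 1) := by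
      rw [← hTK]
      exact (Nat.sub_le _ _).trans (Nat.mul_le_mul_right T hYlt)
    have hx1 : Y * T - 1 ≤ 10 ^ (2 * L + 1) := by omega
    have hsub : PA K a (Y * T - 1) ⊆ PA K a ((Y + 1) * T - 1) := by
      unfold PA
      apply filter_subset_filter
      apply Icc_subset_Icc le_rfl
      omega
    have h1 := sum_sdiff (f := fun p : ℕ => Real.log p) hsub
    have h2 := hA L K a ((Y + 1) * T - 1) hL hK hle' ha1 hx2
    have h3 := hA L K a (Y * T - 1) hL hK hle' ha1 hx1
    have h4 : (((Y + 1) * T - 1 : ℕ) : ℝ) = ((Y * T - 1 : ℕ) : ℝ) + T := by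
      have : (Y + 1) * T - 1 = (Y * T - 1) + T := by omega
      rw [this]
      push_cast
      ring
    rw [h4] at h2
    unfold PA at h1 ⊢
    rw [abs_le] at h2 h3 ⊢
    have h5 : (((Y * T - 1 : ℕ) : ℝ) + T) / (Nat.totient (10 ^ K) : ℝ) =
        ((Y * T - 1 : ℕ) : ℝ) / (Nat.totient (10 ^ K) : ℝ) + (T : ℝ) / (Nat.totient (10 ^ K) : ℝ) :=
      add_div _ _ _
    rw [h5] at h2
    constructor <;> linarith [h2.1, h2.2, h3.1, h3.2]
  have hmain : ∑ a ∈ Good K u v, (T : ℝ) / (Nat.totient (10 ^ K) : ℝ) =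
      (if v.Coprime 10 then 3 / 4 else 1) * 10 ^ (2 * L + 1) / 10 ^ K := by
    rw [sum_const, card_good hK hu, hφ, nsmul_eq_mul]
    have h1 : (10 : ℝ) ^ (2 * L + 1) = 10 ^ K * T := by exact_mod_cast hTK.symm
    rw [h1]
    have h2 : (0 : ℝ) < 10 ^ K := by positivity
    have h3 : (0 : ℝ) < 10 ^ (K - 1) := by positivity
    split_ifs <;> push_cast <;> field_simp <;> norm_num
  rw [← hmain, ← sum_sub_distrib]
  refine (abs_sum_le_sum_abs _ _).trans ((sum_le_sum hterm).trans ?_)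
  rw [sum_const, nsmul_eq_mul]
  have hcard : ((Good K u v).card : ℝ) ≤ 10 ^ K := by
    have h1 : (Good K u v).card ≤ (range (10 ^ K)).card := card_filter_le _ _
    rw [card_range] at h1
    exact_mod_cast h1
  have hexp : Real.exp (c0 / 2 * X) * Real.exp (-(c0 * X)) = Real.exp (-(c0 / 2 * X)) := by
    rw [← Real.exp_add]
    congr 1
    ring
  calc ((Good K u v).card : ℝ) * (2 * C0 * 10 ^ (2 * L + 1) * Real.exp (-(c0 * X))) ≤
      Real.exp (c0 / 2 * X) * (2 * C0 * 10 ^ (2 * L + 1) * Real.exp (-(c0 * X))) := by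
        apply mul_le_mul_of_nonneg_right (hcard.trans hle) (by positivity)
    _ = 2 * C0 * 10 ^ (2 * L + 1) * (Real.exp (c0 / 2 * X) * Real.exp (-(c0 * X))) := by ring
    _ = _ := by rw [hexp]

end Pool.Agent.P8H1.AR
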